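import Pool.Agent.N206.CG.Af

/-!
Project CG: normal subgroups N of the affine groups satisfy N = [N, P].
-/

set_option autoImplicit false

namespace Pool.Agent.N322.CG

open Pool.Agent.N206.CG Pool.Agent.N206.CG.Af Equiv
open scoped commutatorElement

section

variable {R : Type} [CommRing R]

/-- translations -/
def T (t : EE R) : Aff R := ⟨1, t⟩

theorem T_add (s t : EE R) : T s * T t = T (s + t) := by
  apply Aff.ext
  · exact one_mul 1
  · rfl

theorem T_zero : T (0 : EE R) = 1 := rfl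

theorem T_inv (t : EE R) : (T t)⁻¹ = T (-t) := by
  apply inv_eq_of_mul_eq_one_right
  rw [T_add, add_neg_cancel, T_zero]

theorem T_comm (t : EE R) (b : A5) : ⁅T t, (⟨b, 0⟩ : Aff R)⁆ = T (t - pa b t) := by
  rw [commutatorElement_def, T_inv]
  apply Aff.ext
  · change 1 * b * 1 * b⁻¹ = 1
    group
  · apply Subtype.ext
    funext k i
    simp [mul_t, inv_t, mul_a, T, sub_eq_add_neg, pa_neg]

/-- the rotation -/
def rot : A5 := ⟨finRotate 5, by
  rw [Perm.mem_alternatingGroup, sign_finRotate]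
  rfl⟩

theorem rot_val (i : Fin 5) : (finRotate 5)⁻¹ i = i - 1 ∧ ((finRotate 5) ^ 2)⁻¹ i = i - 2 ∧
    ((finRotate 5) ^ 3)⁻¹ i = i - 3 ∧ ((finRotate 5) ^ 4)⁻¹ i = i - 4 := by
  revert i
  decide

theorem rot_sum (t : EE R) : (t - pa (rot : A5) t) + (t - pa (rot ^ 2 : A5) t) +
    (t - pa (rot ^ 3 : A5) t) + (t - pa (rot ^ 4 : A5) t) = 5 • t := by
  apply Subtype.ext
  funext k i
  have h := t.2 k
  rw [Fin.sum_univ_five] at h
  obtain ⟨h1, h2, h3, h4⟩ := rot_val i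
  change (t.1 k i - t.1 k ((finRotate 5)⁻¹ i)) + (t.1 k i - t.1 k (((finRotate 5) ^ 2)⁻¹ i)) +
    (t.1 k i - t.1 k (((finRotate 5) ^ 3)⁻¹ i)) + (t.1 k i - t.1 k (((finRotate 5) ^ 4)⁻¹ i)) =
    5 • t.1 k i
  rw [h1, h2, h3, h4]
  have h5 : t.1 k i + t.1 k (i - 1) + t.1 k (i - 2) + t.1 k (i - 3) + t.1 k (i - 4) = 0 := by
    rw [← h]
    fin_cases i
    · change t.1 k 0 + t.1 k 4 + t.1 k 3 + t.1 k 2 + t.1 k 1 = _
      ring
    · change t.1 k 1 + t.1 k 0 + t.1 k 4 + t.1 k 3 + t.1 k 2 = _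
      ring
    · change t.1 k 2 + t.1 k 1 + t.1 k 0 + t.1 k 4 + t.1 k 3 = _
      ring
    · change t.1 k 3 + t.1 k 2 + t.1 k 1 + t.1 k 0 + t.1 k 4 = _
      ring
    · change t.1 k 4 + t.1 k 3 + t.1 k 2 + t.1 k 1 + t.1 k 0 = _
      ring
  rw [nsmul_eq_mul]
  push_cast
  linear_combination -h5

/-- the translations in a subgroup -/
def U (C : Subgroup (Aff R)) : AddSubgroup (EE R) where
  carrier := {t | T t ∈ C}
  zero_mem' := C.one_mem
  add_mem' := by
    intro a b ha hb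
    change T (a + b) ∈ C
    rw [← T_add]
    exact C.mul_mem ha hb
  neg_mem' := by
    intro a ha
    change T (-a) ∈ C
    rw [← T_inv]
    exact C.inv_mem ha

theorem mem_U {C : Subgroup (Aff R)} {t : EE R} : t ∈ U C ↔ T t ∈ C := Iff.rfl

/-- the linear part -/
def lp : Aff R →* A5 where
  toFun g := g.a
  map_one' := rfl
  map_mul' _ _ := rfl

theorem lp_surj : Function.Surjective (lp (R := R)) := fun a => ⟨⟨a, 0⟩, rfl⟩

theorem five (N : Subgroup (Aff R)) (t : EE R) (ht : T t ∈ N) :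
    5 • t ∈ U ⁅N, (⊤ : Subgroup (Aff R))⁆ := by
  have h1 : ∀ b : A5, t - pa b t ∈ U ⁅N, (⊤ : Subgroup (Aff R))⁆ := by
    intro b
    rw [mem_U, ← T_comm]
    exact Subgroup.commutator_mem_commutator ht (Subgroup.mem_top _)
  rw [← rot_sum]
  exact (U _).add_mem ((U _).add_mem ((U _).add_mem (h1 _) (h1 _)) (h1 _)) (h1 _)

end

theorem trans_mem {p : ℕ} [Fact p.Prime] (hp : 1000 ≤ p) (N : Subgroup (Aff (ZMod p)))
    (t : EE (ZMod p)) (ht : T t ∈ N) : T t ∈ ⁅N, (⊤ : Subgroup (Aff (ZMod p)))⁆ := by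
  have h5 : (5 : ZMod p) ≠ 0 := by
    intro h
    have h1 : ((5 : ℕ) : ZMod p) = 0 := by exact_mod_cast h
    rw [ZMod.natCast_eq_zero_iff] at h1
    have := Nat.le_of_dvd (by norm_num) h1
    omega
  obtain ⟨m, hm⟩ : ∃ m : ℕ, (m : ZMod p) = (5 : ZMod p)⁻¹ :=
    ⟨((5 : ZMod p)⁻¹).val, ZMod.natCast_zmod_val _⟩
  have h1 : T (m • t) ∈ N := (U N).nsmul_mem ht m
  have h2 := five N _ h1
  have h3 : 5 • (m • t) = t := by
    apply Subtype.ext
    funext k i
    change 5 • (m • t.1 k i) = t.1 k i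
    rw [nsmul_eq_mul, nsmul_eq_mul, hm]
    push_cast
    rw [← mul_assoc, mul_inv_cancel₀ h5, one_mul]
  rw [h3] at h2
  exact h2

theorem perf {p : ℕ} [Fact p.Prime] (hp : 1000 ≤ p) (N : Subgroup (Aff (ZMod p))) [N.Normal] :
    N ≤ ⁅N, (⊤ : Subgroup (Aff (ZMod p)))⁆ := by
  have hDN : ⁅N, (⊤ : Subgroup (Aff (ZMod p)))⁆ ≤ N := Subgroup.commutator_le_left N ⊤
  have hm : (N.map (lp (R := ZMod p))).Normal := Subgroup.Normal.map inferInstance _ lp_surj
  have hs : IsSimpleGroup A5 := inferInstance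
  rcases hm.eq_bot_or_eq_top with h | h
  · intro g hg
    have h1 : g.a = 1 := by
      have h2 : lp g ∈ N.map (lp (R := ZMod p)) := Subgroup.mem_map_of_mem _ hg
      rw [h, Subgroup.mem_bot] at h2
      exact h2
    have h2 : g = T g.t := Aff.ext h1 rfl
    rw [h2] at hg ⊢
    exact trans_mem hp N _ hg
  · have h1 : (⁅N, (⊤ : Subgroup (Aff (ZMod p)))⁆).map (lp (R := ZMod p)) = ⊤ := by
      rw [Subgroup.map_commutator, h, Subgroup.map_top_of_surjective _ lp_surj]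
      exact commutator_alternatingGroup_eq_top (by simp)
    intro g hg
    obtain ⟨d, hd, hda⟩ : lp g ∈ (⁅N, (⊤ : Subgroup (Aff (ZMod p)))⁆).map (lp (R := ZMod p)) := by
      rw [h1]
      exact Subgroup.mem_top _
    have h2 : (g * d⁻¹).a = 1 := by
      have h3 : lp (g * d⁻¹) = 1 := by rw [map_mul, map_inv, hda, mul_inv_cancel]
      exact h3
    have h3 : g * d⁻¹ = T (g * d⁻¹).t := Aff.ext h2 rfl
    have h4 : g * d⁻¹ ∈ N := N.mul_mem hg (N.inv_mem (hDN hd))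
    rw [h3] at h4
    have h5 := trans_mem hp N _ h4
    rw [← h3] at h5
    have h6 := Subgroup.mul_mem _ h5 hd
    rwa [inv_mul_cancel_right] at h6

theorem t_F4r : S_F4r := by
  intro p hpp hp N hN hn
  have : Fact p.Prime := ⟨hpp⟩
  have hnor : (N.comap (act (R := ZMod p))).Normal := by
    constructor
    intro n hn' g
    rw [Subgroup.mem_comap] at hn' ⊢
    rw [map_mul, map_mul, map_inv]
    exact hn _ ⟨g, rfl⟩ _ hn'
  intro g hg
  obtain ⟨x, hx⟩ := hN hg
  have h1 : x ∈ N.comap (act (R := ZMod p)) := by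
    rw [Subgroup.mem_comap, hx]
    exact hg
  have h2 := perf hp (N.comap (act (R := ZMod p))) h1
  have h3 : act x ∈ (⁅N.comap (act (R := ZMod p)), (⊤ : Subgroup (Aff (ZMod p)))⁆).map act :=
    Subgroup.mem_map_of_mem _ h2
  rw [Subgroup.map_commutator, hx] at h3
  refine Subgroup.commutator_mono (Subgroup.map_comap_le _ _) ?_ h3
  exact le_of_eq (MonoidHom.range_eq_map _).symm

end Pool.Agent.N322.CG
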